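import Pool.Agent.helper5.LDH.Spec

/-!
# Project LDH (MP_4467b5_nt), row V3: the third derivative test
-/

set_option autoImplicit false

open Complex MeasureTheory

namespace Pool.Agent.LDH

theorem V3_norm_ee (x : ℝ) : ‖ee x‖ = 1 := by
  unfold ee
  exact Complex.norm_exp_ofReal_mul_I _

theorem V3_ee_conj (x y : ℝ) : ee x * (starRingEnd ℂ) (ee y) = ee (x - y) := by
  unfold ee
  rw [← Complex.exp_conj, map_mul, Complex.conj_I, Complex.conj_ofReal, ← Complex.exp_add]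
  congr 1
  push_cast
  ring

/-- the second differences of `f (n + q) - f n` are sums of third differences -/
theorem V3_diff (f : ℕ → ℝ) (n q : ℕ) :
    (f (n + 2 + q) - f (n + 2)) - 2 * (f (n + 1 + q) - f (n + 1)) + (f (n + q) - f n) =
      ∑ i ∈ Finset.range q, (f (n + i + 3) - 3 * f (n + i + 2) + 3 * f (n + i + 1) - f (n + i)) := by
  induction q with
  | zero => simp
  | succ q ih =>
    rw [Finset.sum_range_succ, ← ih]
    have e1 : n + 2 + (q + 1) = n + q + 3 := by ring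
    have e2 : n + 1 + (q + 1) = n + q + 2 := by ring
    have e3 : n + (q + 1) = n + q + 1 := by ring
    have e4 : n + 2 + q = n + q + 2 := by ring
    have e5 : n + 1 + q = n + q + 1 := by ring
    rw [e1, e2, e3, e4, e5]
    ring

theorem V3_sum_inv (Q : ℕ) : ∑ q ∈ Finset.Ioo 0 (Q + 1), (Real.sqrt q)⁻¹ ≤ 2 * Real.sqrt Q := by
  induction Q with
  | zero =>
    have h0 : Finset.Ioo 0 (0 + 1) = (∅ : Finset ℕ) := rfl
    rw [h0]
    simp
  | succ Q ih =>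
    have h1 : Finset.Ioo 0 (Q + 1 + 1) = insert (Q + 1) (Finset.Ioo 0 (Q + 1)) := by
      ext x
      simp only [Finset.mem_Ioo, Finset.mem_insert]
      omega
    rw [h1, Finset.sum_insert (by simp)]
    have h2 : (Real.sqrt ((Q + 1 : ℕ) : ℝ))⁻¹ ≤
        2 * Real.sqrt ((Q + 1 : ℕ) : ℝ) - 2 * Real.sqrt Q := by
      have ha : 0 < Real.sqrt ((Q + 1 : ℕ) : ℝ) := Real.sqrt_pos.2 (by positivity)
      have hb : 0 ≤ Real.sqrt (Q : ℝ) := Real.sqrt_nonneg _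
      have ha2 : Real.sqrt ((Q + 1 : ℕ) : ℝ) ^ 2 = Q + 1 := by
        rw [Real.sq_sqrt (by positivity)]
        push_cast
        ring
      have hb2 : Real.sqrt (Q : ℝ) ^ 2 = Q := Real.sq_sqrt (by positivity)
      rw [inv_le_iff_one_le_mul₀ ha]
      nlinarith [sq_nonneg (Real.sqrt ((Q + 1 : ℕ) : ℝ) - Real.sqrt Q)]
    linarith

theorem V3_sum_sqrt (Q : ℕ) : ∑ q ∈ Finset.Ioo 0 (Q + 1), Real.sqrt q ≤ (Q + 1) * Real.sqrt (Q + 1) := by
  have h1 : ∑ q ∈ Finset.Ioo 0 (Q + 1), Real.sqrt q ≤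
      ∑ q ∈ Finset.Ioo 0 (Q + 1), Real.sqrt ((Q : ℝ) + 1) := by
    refine Finset.sum_le_sum fun q hq => Real.sqrt_le_sqrt ?_
    rw [Finset.mem_Ioo] at hq
    have : q ≤ Q := by omega
    have h2 : (q : ℝ) ≤ Q := by exact_mod_cast this
    linarith
  refine h1.trans ?_
  rw [Finset.sum_const, nsmul_eq_mul, Nat.card_Ioo]
  refine mul_le_mul_of_nonneg_right ?_ (Real.sqrt_nonneg _)
  have : Q + 1 - 0 - 1 ≤ Q + 1 := by omega
  exact_mod_cast this

theorem V3 (hWD : WD_stmt) (hV2 : V2_stmt) : V3_stmt := by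
  intro f a b l α hab hl hα hd
  have hN0 : (0 : ℝ) ≤ (b : ℝ) - a := by
    have : (a : ℝ) ≤ b := by exact_mod_cast hab
    linarith
  have htriv : ‖∑ n ∈ Finset.Ioc a b, ee (f n)‖ ≤ (b : ℝ) - a := by
    refine (norm_sum_le _ _).trans ?_
    simp only [V3_norm_ee]
    rw [Finset.sum_const, Nat.card_Ioc, nsmul_eq_mul, mul_one, Nat.cast_sub hab]
  obtain ⟨w, hw⟩ : ∃ w : ℝ, w = l ^ (1 / 6 : ℝ) := ⟨_, rfl⟩
  have hw0 : 0 < w := by rw [hw]; exact Real.rpow_pos_of_pos hl _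
  have hw6 : w ^ 6 = l := by
    rw [hw, ← Real.rpow_natCast, ← Real.rpow_mul hl.le]
    norm_num
  have hwi : l ^ (-(1 / 6) : ℝ) = w⁻¹ := by rw [Real.rpow_neg hl.le, ← hw]
  have hNh : ((b : ℝ) - a) ^ (1 / 2 : ℝ) = Real.sqrt ((b : ℝ) - a) := (Real.sqrt_eq_rpow _).symm
  rw [← hw, hwi, hNh]
  obtain ⟨N, hN⟩ : ∃ N : ℝ, N = (b : ℝ) - a := ⟨_, rfl⟩
  rw [← hN] at hN0 htriv ⊢
  have hsN : Real.sqrt N ^ 2 = N := Real.sq_sqrt hN0
  have hsN0 : 0 ≤ Real.sqrt N := Real.sqrt_nonneg _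
  have hwi0 : 0 < w⁻¹ := inv_pos.2 hw0
  rcases le_or_gt 1 w with h1 | h1
  · refine htriv.trans ?_
    have h2 : N ≤ N * w := le_mul_of_one_le_right hN0 h1
    have h3 : 0 ≤ Real.sqrt N * w⁻¹ := mul_nonneg hsN0 hwi0.le
    have h4 : 0 ≤ N * w := mul_nonneg hN0 hw0.le
    nlinarith
  -- the length of the shifts
  obtain ⟨Q, hQ⟩ : ∃ Q : ℕ, Q = ⌈(w⁻¹) ^ 2⌉₊ := ⟨_, rfl⟩
  have hv1 : 1 ≤ w⁻¹ := (one_le_inv₀ hw0).2 h1.le
  have hQ1 : (w⁻¹) ^ 2 ≤ Q := by rw [hQ]; exact Nat.le_ceil _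
  have hQ2 : (Q : ℝ) ≤ 2 * (w⁻¹) ^ 2 := by
    have := (Nat.ceil_lt_add_one (sq_nonneg w⁻¹)).le
    rw [← hQ] at this
    nlinarith
  have hQ3 : (1 : ℝ) ≤ Q := by nlinarith
  have hQ4 : 1 ≤ Q := by exact_mod_cast hQ3
  rcases lt_or_ge b (a + Q) with h2 | h2
  · refine htriv.trans ?_
    have h3 : N ≤ 2 * (w⁻¹) ^ 2 := by
      have : (b : ℝ) ≤ a + Q := by exact_mod_cast h2.le
      rw [hN]
      linarith
    have h4 : Real.sqrt N ≤ 2 * w⁻¹ := by
      rw [Real.sqrt_le_left (by positivity)]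
      nlinarith
    have h5 : 0 ≤ N * w := mul_nonneg hN0 hw0.le
    have h6 : N ≤ 2 * (Real.sqrt N * w⁻¹) := by nlinarith
    have h7 : 0 ≤ Real.sqrt N * w⁻¹ := mul_nonneg hsN0 hwi0.le
    nlinarith
  · have hW := hWD (fun n => ee (f n)) a b Q (fun n => (V3_norm_ee _).le) hQ4 h2
    rw [← hN] at hW
    obtain ⟨S, hS⟩ : ∃ S : ℝ, S = ‖∑ n ∈ Finset.Ioc a b, ee (f n)‖ := ⟨_, rfl⟩
    have hS0 : 0 ≤ S := by rw [hS]; exact norm_nonneg _
    rw [← hS] at hW ⊢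
    have hl2 : Real.sqrt l = w ^ 3 := by
      rw [← hw6, show w ^ 6 = (w ^ 3) ^ 2 by ring]
      exact Real.sqrt_sq (by positivity)
    have hq : ∀ q ∈ Finset.Ioo 0 Q, ‖∑ n ∈ Finset.Ioc a (b - q), ee (f (n + q)) *
        (starRingEnd ℂ) (ee (f n))‖ ≤ 20 * α * (N * (Real.sqrt q * w ^ 3) +
          (Real.sqrt q)⁻¹ * (w⁻¹) ^ 3) := by
      intro q hq
      rw [Finset.mem_Ioo] at hq
      have hq0 : (0 : ℝ) < q := by exact_mod_cast hq.1
      have hqb : q ≤ b := by omega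
      have hab' : a ≤ b - q := by omega
      have h3 := hV2 (fun n => f (n + q) - f n) a (b - q) (q * l) α hab' (mul_pos hq0 hl) hα ?_
      · have h4 : ∑ n ∈ Finset.Ioc a (b - q), ee (f (n + q)) * (starRingEnd ℂ) (ee (f n)) =
            ∑ n ∈ Finset.Ioc a (b - q), ee (f (n + q) - f n) :=
          Finset.sum_congr rfl fun n _ => V3_ee_conj _ _
        rw [h4]
        refine h3.trans ?_
        have h5 : ((q : ℝ) * l) ^ (1 / 2 : ℝ) = Real.sqrt q * w ^ 3 := by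
          rw [← Real.sqrt_eq_rpow, Real.sqrt_mul hq0.le, hl2]
        have h6 : ((q : ℝ) * l) ^ (-(1 / 2) : ℝ) = (Real.sqrt q)⁻¹ * (w⁻¹) ^ 3 := by
          rw [Real.rpow_neg (mul_pos hq0 hl).le, h5, mul_inv, inv_pow]
        rw [h5, h6]
        have h7 : ((b - q : ℕ) : ℝ) - a ≤ N := by
          rw [Nat.cast_sub hqb, hN]
          linarith
        have h8 : 0 ≤ Real.sqrt q * w ^ 3 := by positivity
        have h9 : (((b - q : ℕ) : ℝ) - a) * (Real.sqrt q * w ^ 3) ≤ N * (Real.sqrt q * w ^ 3) :=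
          mul_le_mul_of_nonneg_right h7 h8
        refine mul_le_mul_of_nonneg_left ?_ (by linarith)
        linarith
      · intro n hn1 hn2
        have h4 := V3_diff f n q
        have h5 : ∀ i ∈ Finset.range q, l ≤ f (n + i + 3) - 3 * f (n + i + 2) + 3 * f (n + i + 1) -
            f (n + i) ∧ f (n + i + 3) - 3 * f (n + i + 2) + 3 * f (n + i + 1) - f (n + i) ≤ α * l := by
          intro i hi
          rw [Finset.mem_range] at hi
          exact hd (n + i) (by omega) (by omega)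
        have h6 : (q : ℝ) * l ≤ ∑ i ∈ Finset.range q, (f (n + i + 3) - 3 * f (n + i + 2) +
            3 * f (n + i + 1) - f (n + i)) := by
          have := Finset.card_nsmul_le_sum (Finset.range q) _ l fun i hi => (h5 i hi).1
          rwa [Finset.card_range, nsmul_eq_mul] at this
        have h7 : ∑ i ∈ Finset.range q, (f (n + i + 3) - 3 * f (n + i + 2) +
            3 * f (n + i + 1) - f (n + i)) ≤ (q : ℝ) * (α * l) := by
          have := Finset.sum_le_card_nsmul (Finset.range q) _ (α * l) fun i hi => (h5 i hi).2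
          rwa [Finset.card_range, nsmul_eq_mul] at this
        rw [← h4] at h6 h7
        refine ⟨?_, ?_⟩
        · show (q : ℝ) * l ≤ (f (n + 2 + q) - f (n + 2)) - 2 * (f (n + 1 + q) - f (n + 1)) +
            (f (n + q) - f n)
          exact h6
        · show (f (n + 2 + q) - f (n + 2)) - 2 * (f (n + 1 + q) - f (n + 1)) +
            (f (n + q) - f n) ≤ α * ((q : ℝ) * l)
          linarith
    have hsum := Finset.sum_le_sum hq
    rw [← Finset.mul_sum, Finset.sum_add_distrib, ← Finset.mul_sum, ← Finset.sum_mul,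
      ← Finset.sum_mul] at hsum
    obtain ⟨Q', rfl⟩ : ∃ Q', Q = Q' + 1 := ⟨Q - 1, by omega⟩
    obtain ⟨s, hs⟩ : ∃ s : ℝ, s = Real.sqrt ((Q' + 1 : ℕ) : ℝ) := ⟨_, rfl⟩
    have hs2 : s ^ 2 = ((Q' + 1 : ℕ) : ℝ) := by rw [hs]; exact Real.sq_sqrt (by positivity)
    have hs0 : 0 < s := by rw [hs]; exact Real.sqrt_pos.2 (by positivity)
    have h3 : ∑ q ∈ Finset.Ioo 0 (Q' + 1), Real.sqrt q ≤ s ^ 3 := by
      refine (V3_sum_sqrt Q').trans (le_of_eq ?_)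
      have : (Q' : ℝ) + 1 = ((Q' + 1 : ℕ) : ℝ) := by push_cast; ring
      rw [this, ← hs, ← hs2]
      ring
    have h4 : ∑ q ∈ Finset.Ioo 0 (Q' + 1), (Real.sqrt q)⁻¹ ≤ 2 * s := by
      refine (V3_sum_inv Q').trans ?_
      have : Real.sqrt (Q' : ℝ) ≤ s := by
        rw [hs]
        refine Real.sqrt_le_sqrt ?_
        push_cast
        linarith
      linarith
    have hsw1 : w⁻¹ ≤ s := by
      rw [hs]
      exact Real.le_sqrt_of_sq_le hQ1
    have hsw2 : s ≤ 3 / 2 * w⁻¹ := by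
      rw [hs, Real.sqrt_le_left (by positivity)]
      nlinarith
    have hww : w * w⁻¹ = 1 := mul_inv_cancel₀ hw0.ne'
    -- bound for the sum of the correlations
    obtain ⟨T, hT⟩ : ∃ T : ℝ, T = ∑ q ∈ Finset.Ioo 0 (Q' + 1), ‖∑ n ∈ Finset.Ioc a (b - q),
      ee (f (n + q)) * (starRingEnd ℂ) (ee (f n))‖ := ⟨_, rfl⟩
    rw [← hT] at hW hsum
    have h5 : T ≤ 20 * α * (N * (s ^ 3 * w ^ 3) + 2 * s * (w⁻¹) ^ 3) := by
      refine hsum.trans (mul_le_mul_of_nonneg_left ?_ (by linarith))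
      have h6 := mul_le_mul_of_nonneg_right h3 (pow_nonneg hw0.le 3)
      have h7 := mul_le_mul_of_nonneg_left h6 hN0
      have h8 := mul_le_mul_of_nonneg_right h4 (pow_nonneg hwi0.le 3)
      linarith
    have hr0 : 0 ≤ 2 * (N / ((Q' + 1 : ℕ) : ℝ)) := by positivity
    have h6 : S ^ 2 ≤ 2 * (N / s ^ 2) * (N + 2 * (20 * α * (N * (s ^ 3 * w ^ 3) +
        2 * s * (w⁻¹) ^ 3))) := by
      rw [hs2]
      refine hW.trans (mul_le_mul_of_nonneg_left ?_ hr0)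
      linarith
    -- in terms of `r = s⁻¹`
    obtain ⟨r, hr⟩ : ∃ r : ℝ, r = s⁻¹ := ⟨_, rfl⟩
    have hrs : r * s = 1 := by rw [hr]; exact inv_mul_cancel₀ hs0.ne'
    have hrw : r ≤ w := by
      rw [hr]
      exact inv_le_of_inv_le₀ hw0 hsw1
    have hr1 : 0 < r := by rw [hr]; exact inv_pos.2 hs0
    have h7 : 2 * (N / s ^ 2) * (N + 2 * (20 * α * (N * (s ^ 3 * w ^ 3) + 2 * s * (w⁻¹) ^ 3))) =
        2 * N ^ 2 * r ^ 2 + 80 * α * N ^ 2 * (s * w ^ 3) + 160 * α * N * (r * (w⁻¹) ^ 3) := by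
      have e1 : N / s ^ 2 = N * r ^ 2 := by rw [hr, inv_pow]; rfl
      rw [e1]
      have e2 : r ^ 2 * s ^ 3 = s := by
        calc r ^ 2 * s ^ 3 = (r * s) ^ 2 * s := by ring
          _ = s := by rw [hrs]; ring
      have e3 : r ^ 2 * s = r := by
        calc r ^ 2 * s = (r * s) * r := by ring
          _ = r := by rw [hrs]; ring
      linear_combination (80 * α * N ^ 2 * w ^ 3) * e2 + (160 * α * N * (w⁻¹) ^ 3) * e3
    rw [h7] at h6
    have h8 : r ^ 2 ≤ w ^ 2 := pow_le_pow_left₀ hr1.le hrw 2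
    have h9 : s * w ^ 3 ≤ 3 / 2 * w ^ 2 := by
      have := mul_le_mul_of_nonneg_right hsw2 (pow_nonneg hw0.le 3)
      calc s * w ^ 3 ≤ 3 / 2 * w⁻¹ * w ^ 3 := this
        _ = 3 / 2 * w ^ 2 * (w * w⁻¹) := by ring
        _ = 3 / 2 * w ^ 2 := by rw [hww, mul_one]
    have h10 : r * (w⁻¹) ^ 3 ≤ (w⁻¹) ^ 2 := by
      have := mul_le_mul_of_nonneg_right hrw (pow_nonneg hwi0.le 3)
      calc r * (w⁻¹) ^ 3 ≤ w * (w⁻¹) ^ 3 := this
        _ = (w⁻¹) ^ 2 * (w * w⁻¹) := by ring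
        _ = (w⁻¹) ^ 2 := by rw [hww, mul_one]
    have h11 : S ^ 2 ≤ 122 * α * N ^ 2 * w ^ 2 + 160 * α * N * (w⁻¹) ^ 2 := by
      have k1 : 2 * N ^ 2 * r ^ 2 ≤ 2 * α * N ^ 2 * w ^ 2 := by
        have : 2 * N ^ 2 * r ^ 2 ≤ 2 * N ^ 2 * w ^ 2 := mul_le_mul_of_nonneg_left h8 (by positivity)
        have h : 0 ≤ 2 * N ^ 2 * w ^ 2 := by positivity
        nlinarith
      have k2 : 80 * α * N ^ 2 * (s * w ^ 3) ≤ 80 * α * N ^ 2 * (3 / 2 * w ^ 2) :=
        mul_le_mul_of_nonneg_left h9 (by positivity)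
      have k3 : 160 * α * N * (r * (w⁻¹) ^ 3) ≤ 160 * α * N * (w⁻¹) ^ 2 :=
        mul_le_mul_of_nonneg_left h10 (by positivity)
      nlinarith
    have h12 : S ^ 2 ≤ (20 * α * (N * w + Real.sqrt N * w⁻¹)) ^ 2 := by
      refine h11.trans ?_
      have k1 : 0 ≤ N ^ 2 * w ^ 2 := by positivity
      have k2 : 0 ≤ N * (w⁻¹) ^ 2 := by positivity
      have k3 : 0 ≤ N * w * (Real.sqrt N * w⁻¹) := by positivity
      have k4 : α ≤ α ^ 2 := by nlinarith
      have e : (20 * α * (N * w + Real.sqrt N * w⁻¹)) ^ 2 =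
          400 * α ^ 2 * (N ^ 2 * w ^ 2 + Real.sqrt N ^ 2 * (w⁻¹) ^ 2 +
            2 * (N * w * (Real.sqrt N * w⁻¹))) := by ring
      rw [e, hsN]
      have k5 : 122 * α * N ^ 2 * w ^ 2 ≤ 400 * α ^ 2 * (N ^ 2 * w ^ 2) := by
        have : 122 * α ≤ 400 * α ^ 2 := by nlinarith
        nlinarith
      have k6 : 160 * α * N * (w⁻¹) ^ 2 ≤ 400 * α ^ 2 * (N * (w⁻¹) ^ 2) := by
        have : 160 * α ≤ 400 * α ^ 2 := by nlinarith
        nlinarith
      have k7 : 0 ≤ 400 * α ^ 2 * (2 * (N * w * (Real.sqrt N * w⁻¹))) := by positivity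
      linarith
    exact le_of_sq_le_sq h12 (by positivity)

end Pool.Agent.LDH
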